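import Mathlib
import Pool.Agent.EllSch.Defs
import Pool.Agent.Hhelper14.ZP.Defs

/-!
# LGO: definitions

Large Galois orbits for isogenous triples on curves (MP_d83ecd_ag), see the notes 2913 and the
blueprint in the headers of the modules of this folder.
-/

namespace Pool.Agent.LGO

open UpperHalfPlane

/-- `τ` lies in the closed standard fundamental domain of the upper half plane -/
structure Red (τ : ℂ) : Prop where
  im_pos : 0 < τ.im
  re_le : |τ.re| ≤ 1 / 2
  one_le : 1 ≤ ‖τ‖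

/-- `τ` is not quadratic over `ℚ` -/
def NonCM (τ : ℂ) : Prop :=
  ∀ a b c : ℤ, (a : ℂ) * τ ^ 2 + b * τ + c = 0 → a = 0 ∧ b = 0 ∧ c = 0

/-- `x` is an element of the number field `K` such that `n x` is integral for some positive integer
`n ≤ exp M`, and all conjugates of `x` have absolute value at most `exp M` -/
structure Bd (K : IntermediateField ℚ ℂ) (M : ℝ) (x : ℂ) : Prop where
  mem : x ∈ K
  den : ∃ n : ℕ, 0 < n ∧ (n : ℝ) ≤ Real.exp M ∧ IsIntegral ℤ ((n : ℂ) * x)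
  house : ∀ σ : K →+* ℂ, ‖σ ⟨x, mem⟩‖ ≤ Real.exp M

/-- the integral matrix `g` maps `τ` to `τ'` -/
def Maps (g : Matrix (Fin 2) (Fin 2) ℤ) (τ τ' : ℂ) : Prop :=
  τ' * ((g 1 0 : ℂ) * τ + (g 1 1 : ℂ)) = (g 0 0 : ℂ) * τ + (g 0 1 : ℂ)

/-- the matrix is primitive -/
def Prim (g : Matrix (Fin 2) (Fin 2) ℤ) : Prop := ∀ d : ℕ, (∀ i j, (d : ℤ) ∣ g i j) → d = 1

/-- `x` and `y` are the `j`-invariants of two complex elliptic curves with an isogeny of degree `N`
between them: `x = j(τ)`, `y = j(g τ)` with an integral matrix `g` of determinant `N` -/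
def IsogDeg (N : ℕ) (x y : ℂ) : Prop :=
  ∃ (τ τ' : ℍ) (g : Matrix (Fin 2) (Fin 2) ℤ), g.det = N ∧ Maps g τ τ' ∧
    x = Pool.Agent.Hhelper14.ZP.jInv τ ∧ y = Pool.Agent.Hhelper14.ZP.jInv τ'

end Pool.Agent.LGO
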