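import Mathlib
import Pool.Agent.LGO.Defs

/-!
# LGO: definitions for the engines

A curve is given by a reduced period lattice `ℤ w + ℤ w τ` (`Red τ`), `g2 = G2 w (w τ) = 2 a`,
`g3 = G3 w (w τ) = b` with integers `a, b` of the number field `K` (`Crv`).  `uu w τ = 1 / ℘`.
-/

namespace Pool.Agent.LGO

open Pool.Agent.EllSch

/-- `z` is an element of the lattice `ℤ w + ℤ w τ` -/
def InLat (w τ z : ℂ) : Prop := ∃ x : ℤ × ℤ, z = lat w (w * τ) x

/-- some positive multiple of `ξ` maps the first lattice into the second one -/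
def Com (w₁ τ₁ w₂ τ₂ ξ : ℂ) : Prop :=
  ∃ I : ℕ, 0 < I ∧ ∀ z, InLat w₁ τ₁ z → InLat w₂ τ₂ (I * ξ * z)

/-- an elliptic curve over `K` with integral coefficients (`g2 = 2 a`, `g3 = b`) all of whose
conjugates are at most `exp H`, and with the reduced period lattice `ℤ w + ℤ w τ` -/
structure Crv (K : IntermediateField ℚ ℂ) (H : ℝ) (w τ : ℂ) : Prop where
  w_ne : w ≠ 0
  red : Red τ
  g2 : ∃ a : K, IsIntegral ℤ a ∧ G2 w (w * τ) = 2 * (a : ℂ) ∧ ∀ σ : K →+* ℂ, ‖σ a‖ ≤ Real.exp H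
  g3 : ∃ b : K, IsIntegral ℤ b ∧ G3 w (w * τ) = (b : ℂ) ∧ ∀ σ : K →+* ℂ, ‖σ b‖ ≤ Real.exp H

open Classical in
/-- the function `1 / ℘` (with the value `0` at the lattice points) -/
noncomputable def uu (w τ Z : ℂ) : ℂ := if InLat w τ Z then 0 else (wp w (w * τ) Z)⁻¹

end Pool.Agent.LGO
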