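import Mathlib
import Pool.Agent.LGO.Defs

/-!
# LGO: the engines, definitions and conventions

`K` is a number field of degree `≤ M` (embedded in `ℂ`: the chosen place), `T > 0` is a lower bound for
the imaginary parts (the SKEWNESS, it may be very large, and also as small as `1 / M`), all heights are
`≤ M T`.  All bounds are then powers of `M` (for indices) or `exp (- T M ^ C)` (for the measure).
`(w, τ)` describes the lattice `ℤ w + ℤ w τ` with the period `w` under consideration; `τ` need not be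
reduced, but `w` is at most `M` times as long as the shortest period.  Proofs: note 2946 (engines E1,
E2, E3), note 2913, the remarks of the referees in note 2959.  In engine 3 `l₁` or `l₂` may be `0`.
-/

namespace Pool.Agent.LGO

open Pool.Agent.EllSch

/-- the lattice `ℤ w + ℤ w τ` -/
def Lt (w τ : ℂ) : AddSubgroup ℂ where
  carrier := {z | ∃ m n : ℤ, z = m * w + n * (w * τ)}
  add_mem' := by
    rintro _ _ ⟨a, b, rfl⟩ ⟨c, d, rfl⟩
    exact ⟨a + c, b + d, by push_cast; ring⟩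
  zero_mem' := ⟨0, 0, by simp⟩
  neg_mem' := by
    rintro _ ⟨a, b, rfl⟩
    exact ⟨-a, -b, by push_cast; ring⟩

/-- `ξ Λ ⊆ Λ'` -/
def Mp (ξ : ℂ) (Λ Λ' : AddSubgroup ℂ) : Prop := ∀ x ∈ Λ, ξ * x ∈ Λ'

/-- `Hom(Λ, Λ') = ℤ γ` -/
structure Gen (γ : ℂ) (Λ Λ' : AddSubgroup ℂ) : Prop where
  ne : γ ≠ 0
  mp : Mp γ Λ Λ'
  all : ∀ ξ : ℂ, Mp ξ Λ Λ' → ∃ m : ℤ, ξ = m * γ

/-- a lattice with the period `w`, `Im τ ≥ t`, with invariants in `K` of size `B`; `w` is at most `M`
times as long as any other nonzero period -/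
structure Cur (K : IntermediateField ℚ ℂ) (M B t : ℝ) (w τ : ℂ) : Prop where
  w0 : w ≠ 0
  im_pos : 0 < τ.im
  im : t ≤ τ.im
  sh : ∀ v ∈ Lt w τ, v ≠ 0 → ‖w‖ ≤ M * ‖v‖
  g2 : Bd K B (G2 w (w * τ))
  g3 : Bd K B (G3 w (w * τ))

end Pool.Agent.LGO
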