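import Mathlib
import Pool.Agent.LGO.EngDefs
import Pool.Agent.LGO.A.BsE1

/-!
# LGO: engine 1
-/

namespace Pool.Agent.LGO

open Pool.Agent.EllSch

/-- **engine 1** (one variable, exact relation) -/
theorem engine1 : ∃ C : ℕ, ∀ (K : IntermediateField ℚ ℂ) [FiniteDimensional ℚ K] (M T : ℝ)
    (w₁ τ₁ w₂ τ₂ l : ℂ), 2 ≤ M → (Module.finrank ℚ K : ℝ) ≤ M → 0 < T → 1 ≤ M * T →
    Cur K M (M * T) T w₁ τ₁ → Cur K M (M * T) T w₂ τ₂ → Bd K (M * T) l → l * w₁ = w₂ →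
    ∃ n : ℕ, 0 < n ∧ (n : ℝ) ≤ M ^ C ∧ Mp (n * l) (Lt w₁ τ₁) (Lt w₂ τ₂) :=
  Bs.engine1_proof

end Pool.Agent.LGO
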