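import Mathlib
import Pool.Agent.LGO.EngDefs
import Pool.Agent.LGO.A.BsE2

/-!
# LGO: engine 2
-/

namespace Pool.Agent.LGO

open Pool.Agent.EllSch

/-- **engine 2** (measure): `γ` generates the homomorphisms, `w₂` is not a rational multiple of
`γ w₁` -/
theorem engine2 : ∃ C : ℕ, ∀ (K : IntermediateField ℚ ℂ) [FiniteDimensional ℚ K] (M T : ℝ)
    (w₁ τ₁ w₂ τ₂ γ ξ : ℂ), 2 ≤ M → (Module.finrank ℚ K : ℝ) ≤ M → 0 < T → 1 ≤ M * T →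
    Cur K M (M * T) T w₁ τ₁ → Cur K M (M * T) T w₂ τ₂ → Gen γ (Lt w₁ τ₁) (Lt w₂ τ₂) →
    Bd K (M * T) γ → (∀ r : ℚ, w₂ ≠ r * γ * w₁) → Bd K (M * T) ξ →
    Real.exp (-(T * M ^ C)) ≤ ‖w₂ / w₁ - ξ‖ :=
  Bs.engine2_proof

end Pool.Agent.LGO
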