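import Mathlib
import Pool.Agent.LGO.EngDefs
import Pool.Agent.LGO.E3.Fin

/-!
# LGO: engine 3
-/

namespace Pool.Agent.LGO

open Pool.Agent.EllSch

/-- **engine 3** (two variables) -/
theorem engine3 : ∃ C : ℕ, ∀ (K : IntermediateField ℚ ℂ) [FiniteDimensional ℚ K] (M T : ℝ)
    (w₁ τ₁ w₂ τ₂ w₃ τ₃ γ l₁ l₂ : ℂ), 2 ≤ M → (Module.finrank ℚ K : ℝ) ≤ M → 0 < T → 1 ≤ M * T →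
    Cur K M (M * T) T w₁ τ₁ → Cur K M (M * T) T w₂ τ₂ → Cur K M (M * T) (1 / M) w₃ τ₃ →
    Gen γ (Lt w₁ τ₁) (Lt w₂ τ₂) → Bd K (M * T) γ → (∀ r : ℚ, w₂ ≠ r * γ * w₁) →
    Bd K (M * T) l₁ → Bd K (M * T) l₂ → l₁ * w₁ + l₂ * w₂ = w₃ →
    ∃ n : ℕ, 0 < n ∧ (n : ℝ) ≤ M ^ C ∧ Mp (n * l₁) (Lt w₁ τ₁) (Lt w₃ τ₃) ∧
      Mp (n * l₂) (Lt w₂ τ₂) (Lt w₃ τ₃) :=
  E3.engine3'

end Pool.Agent.LGO
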