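import Mathlib
import Pool.Agent.LGO.EngDefs
import Pool.Agent.LGO.Eng1
import Pool.Agent.LGO.Eng2
import Pool.Agent.LGO.Eng3

/-!
# LGO: the engines

`EngDefs.lean`: definitions `Lt`, `Mp`, `Gen`, `Cur`.  `Eng1.lean`, `Eng2.lean`, `Eng3.lean`: the three
engines.  The files with the proofs of the engines import `EngDefs.lean` (and `Eng2.lean` for engine 3).
-/
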