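import Mathlib
import Pool.Agent.LGO.Eng
import Pool.Agent.LGO.H.LatB
import Pool.Agent.LGO.H.SkewBd
import Pool.Agent.LGO.Mul.Gen

/-!
# LGO: the isogeny theorem (ISOG)

From `engine3` (applied to the lattice `Λ_b = ℤ w' + ℤ w' τ'` twice, with the periods `w'`, `w' τ'`,
and to `Λ_a = ℤ w + ℤ w τ` with the period `w = l₁ w' + l₂ w' τ'`, `l₁ = g₀₀ / γ`, `l₂ = - g₁₀ / γ`,
`γ Λ_a ⊆ Λ_b` of index `N = det g`): `k l₁ Λ_b ⊆ Λ_a`, `k l₂ Λ_b ⊆ Λ_a` for some `k ≤ M'^C`,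
`M' = C M^c (1 + log N)`.  So `N` divides `k gcd(g₀₀, g₁₀)`, and
`gcd(g₀₀, g₁₀)^2 ≤ |g₀₀ - g₁₀ τ'|^2 = N Im τ' / Im τ`.
-/

namespace Pool.Agent.LGO

open Pool.Agent.EllSch

/-- powers of the logarithm are small -/
theorem isog_log (n : ℕ) (hn : 0 < n) {x : ℝ} (hx : 1 ≤ x) :
    (1 + Real.log x) ^ n ≤ (1 + n) ^ n * x := by
  have hn' : (0 : ℝ) < n := by exact_mod_cast hn
  have hl : 0 ≤ Real.log x := Real.log_nonneg hx
  have h1 : Real.log x / n ≤ Real.exp (Real.log x / n) := by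
    linarith [Real.add_one_le_exp (Real.log x / n)]
  have h2 : 1 ≤ Real.exp (Real.log x / n) := Real.one_le_exp (by positivity)
  have h3 : 1 + Real.log x ≤ (1 + n) * Real.exp (Real.log x / n) := by
    have h4 : Real.log x ≤ n * Real.exp (Real.log x / n) := by
      rwa [div_le_iff₀' hn'] at h1
    linarith
  calc (1 + Real.log x) ^ n ≤ ((1 + n) * Real.exp (Real.log x / n)) ^ n := by gcongr
    _ = (1 + n) ^ n * Real.exp (Real.log x / n) ^ n := mul_pow _ _ _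
    _ = (1 + n) ^ n * x := by
      rw [← Real.exp_nat_mul, mul_div_cancel₀ _ hn'.ne', Real.exp_log (by linarith)]

/-- `N ≤ c M^a (1 + log N)^b` gives `N ≤ M^C` -/
theorem isog_solve (c : ℝ) (a b : ℕ) : ∃ C : ℕ, ∀ M N : ℝ, 2 ≤ M → 1 ≤ N →
    N ≤ c * M ^ a * (1 + Real.log N) ^ b → N ≤ M ^ C := by
  set n : ℕ := 2 * b + 2 with hn
  set c' : ℝ := (|c| + 1) ^ 2 * (1 + n) ^ n with hc'
  obtain ⟨k, hk⟩ := pow_unbounded_of_one_lt c' (by norm_num : (1 : ℝ) < 2)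
  refine ⟨k + 2 * a, ?_⟩
  intro M N hM hN h
  have hM0 : (0 : ℝ) < M := by linarith
  have hl : 0 ≤ Real.log N := Real.log_nonneg hN
  have h1 : N ≤ (|c| + 1) * M ^ a * (1 + Real.log N) ^ (b + 1) := by
    have hp : (1 + Real.log N) ^ b ≤ (1 + Real.log N) ^ (b + 1) :=
      pow_le_pow_right₀ (by linarith) (by omega)
    have hc : c ≤ |c| + 1 := by linarith [le_abs_self c]
    calc N ≤ c * M ^ a * (1 + Real.log N) ^ b := h
      _ ≤ (|c| + 1) * M ^ a * (1 + Real.log N) ^ (b + 1) := by gcongr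
  have h2 : N * N ≤ c' * M ^ (2 * a) * N := by
    calc N * N ≤ ((|c| + 1) * M ^ a * (1 + Real.log N) ^ (b + 1)) *
          ((|c| + 1) * M ^ a * (1 + Real.log N) ^ (b + 1)) := by gcongr
      _ = (|c| + 1) ^ 2 * M ^ (2 * a) * (1 + Real.log N) ^ n := by
          rw [hn, show 2 * b + 2 = (b + 1) + (b + 1) by ring, pow_add,
            show 2 * a = a + a by ring, pow_add]
          ring
      _ ≤ (|c| + 1) ^ 2 * M ^ (2 * a) * ((1 + n) ^ n * N) := by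
          gcongr
          exact isog_log n (by omega) hN
      _ = c' * M ^ (2 * a) * N := by rw [hc']; ring
  have h3 : N ≤ c' * M ^ (2 * a) := le_of_mul_le_mul_right h2 (by linarith)
  calc N ≤ c' * M ^ (2 * a) := h3
    _ ≤ 2 ^ k * M ^ (2 * a) := by gcongr
    _ ≤ M ^ k * M ^ (2 * a) := by gcongr
    _ = M ^ (k + 2 * a) := by rw [pow_add]

/-- the real inequality `x ≤ exp x` in the form used below -/
theorem isog_exp {x y : ℝ} (h : x ≤ y) : x ≤ Real.exp y :=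
  h.trans (by linarith [Real.add_one_le_exp y])

/-- **isogeny theorem**: the minimal isogeny between two elliptic curves without complex
multiplication has degree at most a power of the degree of the field and of the height -/
theorem isog : ∃ C : ℕ, ∀ (K : IntermediateField ℚ ℂ) [FiniteDimensional ℚ K] (M : ℝ)
    (w τ w' τ' : ℂ), 2 ≤ M → (Module.finrank ℚ K : ℝ) ≤ M → w ≠ 0 → w' ≠ 0 → Red τ → Red τ' →
    NonCM τ → Bd K M (G2 w (w * τ)) → Bd K M (G3 w (w * τ)) →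
    Bd K M (G2 w' (w' * τ')) → Bd K M (G3 w' (w' * τ')) →
    ∀ g : Matrix (Fin 2) (Fin 2) ℤ, 0 < g.det → Prim g → Maps g τ τ' → (g.det : ℝ) ≤ M ^ C := by
  obtain ⟨Ce, hE⟩ := engine3
  obtain ⟨Cm, hCm, hmul⟩ := mul_sq_maps
  obtain ⟨Cv, hCv, hvol⟩ := covol_bd
  set P : ℝ := 22 * Cv + 1 with hP
  have hP1 : 1 ≤ P := by rw [hP]; linarith
  set c1 : ℝ := Cm + 10 * P ^ 2 + 3 with hc1
  have hc1p : 0 < c1 := by positivity
  obtain ⟨C, hC⟩ := isog_solve (2 * P * (8 * P ^ 2 * c1) ^ (2 * Ce)) (2 + 16 * Ce) (2 * Ce)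
  refine ⟨C, ?_⟩
  intro K _ M w τ w' τ' hM hK hw hw' hτ hτ' hcm b2 b3 c2 c3 g hdet hprim hmap
  have hM1 : (1 : ℝ) ≤ M := by linarith
  have hM0 : (0 : ℝ) < M := by linarith
  obtain ⟨N, hN⟩ : ∃ N : ℕ, g.det = N := ⟨g.det.toNat, (Int.toNat_of_nonneg hdet.le).symm⟩
  have hN0 : 0 < N := by rw [hN] at hdet; exact_mod_cast hdet
  have hNR : (1 : ℝ) ≤ N := by exact_mod_cast hN0
  have hNC : (N : ℂ) ≠ 0 := by exact_mod_cast hN0.ne'
  rw [hN]
  apply hC M N hM hNR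
  set L : ℝ := Real.log N with hL
  have hL0 : 0 ≤ L := Real.log_nonneg hNR
  have hexpL : Real.exp L = N := Real.exp_log (by linarith)
  -- the imaginary part of τ'
  have hY : τ'.im ≤ P * M ^ 2 := by
    have bd := MulMain.bd_disc hM1 c2 c3
    have hne := disc_ne_zero (MulMain.ind_w hw' hτ')
    have l1 := bd.lower hK (by positivity) hne (algebraMap K ℂ)
    have l2 : Real.exp (-(2 * M * (10 * M))) ≤
        ‖G2 w' (w' * τ') ^ 3 - 27 * G3 w' (w' * τ') ^ 2‖ := l1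
    have u2 : ‖G2 w' (w' * τ')‖ ≤ Real.exp M := c2.house (algebraMap K ℂ)
    have u3 : ‖G3 w' (w' * τ')‖ ≤ Real.exp M := c3.house (algebraMap K ℂ)
    obtain ⟨k1, -, -⟩ := hvol w' τ' M (2 * M * (10 * M)) hw' hτ' (by positivity) (by positivity)
      u2 u3 l2
    refine k1.trans ?_
    rw [hP]
    have : M ≤ M ^ 2 := by nlinarith
    have h1 : (1 : ℝ) ≤ M ^ 2 := by nlinarith
    nlinarith
  have hPM : 1 ≤ P * M ^ 2 := by
    have h1 : (1 : ℝ) ≤ M ^ 2 := by nlinarith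
    exact one_le_mul_of_one_le_of_one_le hP1 h1
  have him' := hτ'.im_half
  have him := hτ.im_half
  -- parameters
  set Q : ℝ := 2 * (P * M ^ 2 + 1) ^ 2 with hQ
  have hQ2 : 2 * (P * M ^ 2 + 1) ≤ Q := by rw [hQ]; nlinarith
  have hQ4 : 4 ≤ Q := by linarith
  have hQ0 : 0 < Q := by linarith
  have hQle : Q ≤ 8 * P ^ 2 * M ^ 4 := by
    rw [hQ]
    calc 2 * (P * M ^ 2 + 1) ^ 2 ≤ 2 * (P * M ^ 2 + P * M ^ 2) ^ 2 := by gcongr
      _ = 8 * P ^ 2 * M ^ 4 := by ring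
  set T : ℝ := 1 / Q with hT
  have hT0 : 0 < T := by positivity
  set H : ℝ := c1 * M ^ 4 * (1 + L) with hH
  have hM4 : (1 : ℝ) ≤ M ^ 4 := one_le_pow₀ hM1
  have hM24 : M ^ 2 ≤ M ^ 4 := pow_le_pow_right₀ hM1 (by norm_num)
  have hMM4 : M ≤ M ^ 4 := by
    calc M = M ^ 1 := (pow_one M).symm
      _ ≤ M ^ 4 := pow_le_pow_right₀ hM1 (by norm_num)
  have hc13 : 3 ≤ c1 := by rw [hc1]; nlinarith
  have hHM : M ≤ H := by
    calc M ≤ M ^ 4 := hMM4
      _ ≤ c1 * M ^ 4 := le_mul_of_one_le_left (by positivity) (by linarith)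
      _ ≤ H := by rw [hH]; exact le_mul_of_one_le_right (by positivity) (by linarith)
  have hH0 : 0 < H := by linarith
  have hHbig : Cm * (M * M + L) + (L + 10 * P ^ 2 * M ^ 4) + L ≤ H := by
    have e1 : Cm * (M * M + L) ≤ Cm * (M ^ 4 * (1 + L)) := by
      gcongr
      nlinarith
    have e2 : L + 10 * P ^ 2 * M ^ 4 + L ≤ (10 * P ^ 2 + 3) * (M ^ 4 * (1 + L)) := by
      have e3 : L ≤ M ^ 4 * (1 + L) := by nlinarith
      have e4 : M ^ 4 ≤ M ^ 4 * (1 + L) := le_mul_of_one_le_right (by positivity) (by linarith)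
      have e5 : 10 * P ^ 2 * M ^ 4 ≤ 10 * P ^ 2 * (M ^ 4 * (1 + L)) := by gcongr
      have e6 : 0 ≤ M ^ 4 * (1 + L) := by positivity
      linarith
    rw [hH, hc1]
    linarith
  set M' : ℝ := Q * H with hM'
  have hMT : M' * T = H := by rw [hM', hT]; field_simp
  have hQM' : Q ≤ M' := by rw [hM']; exact le_mul_of_one_le_right hQ0.le (by linarith)
  have hM'2 : 2 ≤ M' := by linarith
  -- the multiplier
  have hdet' : (g 0 0 : ℂ) * (g 1 1 : ℂ) - (g 0 1 : ℂ) * (g 1 0 : ℂ) = N := by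
    rw [← det_cast, hN]; simp
  have hbd := (hmul K M M w τ w' τ' g N hM1 hM1 hK hw hw' hτ hτ' hcm b2 b3 c2 c3 hN0 hN hmap).1
  set β : ℂ := mu w τ w' g with hβ
  have hβ' : β = w * ((g 1 0 : ℂ) * τ + (g 1 1 : ℂ)) / w' := rfl
  rw [← hβ'] at hbd
  obtain ⟨K', hKK', hfd, hfr, hbβ⟩ := exists_quad K (by positivity) hbd
  have hgen := gen_mu hw hw' hτ.im_pos.ne' hdet.ne' hprim hmap hcm
  rw [← hβ] at hgen
  -- l₁ w' + l₂ w' τ' = w
  have hrel : ((g 0 0 : ℂ) / N * β) * w' + (((-g 1 0 : ℤ) : ℂ) / N * β) * (w' * τ') = w := by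
    rw [hβ']
    push_cast
    field_simp
    rw [Maps] at hmap
    linear_combination (-(g 1 0 : ℂ)) * hmap + hdet'
  -- the size of g₀₀, g₁₀
  set z : ℂ := (g 0 0 : ℂ) - (g 1 0 : ℂ) * τ' with hz
  have hz2 : ‖z‖ ^ 2 * τ.im = N * τ'.im := by
    have h1 := mu_area (w := w') (τ := τ') (w' := w) (τ' := τ) hw (maps_adj hmap)
    have h2 : mu w' τ' w (adj2 g) = w' * z / w := by
      unfold mu
      rw [adj2_10, adj2_11, hz]; push_cast; ring
    rw [h2, adj2_det, hN, norm_div, norm_mul] at h1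
    have hw0 : ‖w‖ ≠ 0 := norm_ne_zero_iff.2 hw
    have hw0' : ‖w'‖ ≠ 0 := norm_ne_zero_iff.2 hw'
    field_simp at h1
    exact_mod_cast h1
  have hz3 : ‖z‖ ^ 2 ≤ 2 * N * (P * M ^ 2) := by
    have h1 : ‖z‖ ^ 2 * (1 / 2) ≤ ‖z‖ ^ 2 * τ.im := by gcongr
    have h2 : (N : ℝ) * τ'.im ≤ N * (P * M ^ 2) := by gcongr
    linarith
  have hNPM : 1 ≤ N * (P * M ^ 2) := one_le_mul_of_one_le_of_one_le hNR hPM
  have hz4 : ‖z‖ ≤ 2 * (N * (P * M ^ 2)) := by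
    have h0 : 0 ≤ ‖z‖ := norm_nonneg _
    by_contra hcon
    push Not at hcon
    nlinarith
  have hg10 : |(g 1 0 : ℝ)| ≤ 4 * (N * (P * M ^ 2)) := by
    have h1 : z.im = -(g 1 0 : ℝ) * τ'.im := by
      rw [hz]; simp
    have h2 := Complex.abs_im_le_norm z
    rw [h1, abs_mul, abs_neg, abs_of_pos hτ'.im_pos] at h2
    have h3 : |(g 1 0 : ℝ)| * (1 / 2) ≤ |(g 1 0 : ℝ)| * τ'.im := by gcongr
    linarith
  have hnτ' : ‖τ'‖ ≤ 2 * (P * M ^ 2) := by
    have := hτ'.norm_le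
    linarith
  have hg00 : |(g 0 0 : ℝ)| ≤ 10 * (N * (P ^ 2 * M ^ 4)) := by
    have h1 : (g 0 0 : ℂ) = z + (g 1 0 : ℂ) * τ' := by rw [hz]; ring
    have h2 : |(g 0 0 : ℝ)| = ‖(g 0 0 : ℂ)‖ := by rw [Complex.norm_intCast]
    rw [h2, h1]
    refine (norm_add_le _ _).trans ?_
    rw [norm_mul, Complex.norm_intCast]
    calc ‖z‖ + |(g 1 0 : ℝ)| * ‖τ'‖
        ≤ 2 * (N * (P * M ^ 2)) + 4 * (N * (P * M ^ 2)) * (2 * (P * M ^ 2)) := by gcongr
      _ ≤ 2 * (N * (P * M ^ 2)) * (P * M ^ 2) + 4 * (N * (P * M ^ 2)) * (2 * (P * M ^ 2)) := by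
          have h5 : 2 * (N * (P * M ^ 2)) ≤ 2 * (N * (P * M ^ 2)) * (P * M ^ 2) :=
            le_mul_of_one_le_right (by positivity) hPM
          linarith
      _ = 10 * (N * (P ^ 2 * M ^ 4)) := by ring
  have hg10' : |(g 1 0 : ℝ)| ≤ 10 * (N * (P ^ 2 * M ^ 4)) := by
    refine hg10.trans ?_
    have h1 : (N : ℝ) * (P * M ^ 2) ≤ N * (P ^ 2 * M ^ 4) := by
      have h2 : P * M ^ 2 ≤ (P * M ^ 2) * (P * M ^ 2) := le_mul_of_one_le_right (by positivity) hPM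
      calc (N : ℝ) * (P * M ^ 2) ≤ N * ((P * M ^ 2) * (P * M ^ 2)) := by gcongr
        _ = _ := by ring
    have h3 : (0 : ℝ) ≤ N * (P ^ 2 * M ^ 4) := by positivity
    linarith
  have hexpg : (10 : ℝ) * (N * (P ^ 2 * M ^ 4)) ≤ Real.exp (L + 10 * P ^ 2 * M ^ 4) := by
    rw [Real.exp_add, hexpL]
    have h1 : 10 * P ^ 2 * M ^ 4 ≤ Real.exp (10 * P ^ 2 * M ^ 4) := isog_exp le_rfl
    calc (10 : ℝ) * (N * (P ^ 2 * M ^ 4)) = N * (10 * P ^ 2 * M ^ 4) := by ring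
      _ ≤ N * Real.exp (10 * P ^ 2 * M ^ 4) := by gcongr
  -- the bounds of l₁, l₂
  have hNZ : ((N : ℤ)) ≠ 0 := by exact_mod_cast hN0.ne'
  have hNexp : |((N : ℤ) : ℝ)| ≤ Real.exp L := by
    rw [hexpL]; simp
  have bl1 : Bd K' (M' * T) ((g 0 0 : ℂ) / N * β) := by
    rw [hMT]
    have h1 := hbβ.sk_rat (p := g 0 0) (q := (N : ℤ)) hNZ (hg00.trans hexpg) hNexp
      (by positivity) hL0
    have h2 := h1.sk_mono hHbig
    simpa using h2
  have bl2 : Bd K' (M' * T) (((-g 1 0 : ℤ) : ℂ) / N * β) := by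
    rw [hMT]
    have h1 := hbβ.sk_rat (p := -g 1 0) (q := (N : ℤ)) hNZ (by
      push_cast; rw [abs_neg]; exact hg10'.trans hexpg) hNexp (by positivity) hL0
    have h2 := h1.sk_mono hHbig
    simpa using h2
  have bone : Bd K' (M' * T) 1 := by
    rw [hMT]
    refine ⟨K'.one_mem, ⟨1, one_pos, ?_, ?_⟩, fun σ => ?_⟩
    · simpa using hH0.le
    · simpa using isIntegral_one
    · have h1 : (⟨1, K'.one_mem⟩ : K') = 1 := rfl
      rw [h1, map_one, norm_one]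
      exact Real.one_le_exp hH0.le
  have hmono : ∀ x : ℂ, Bd K M x → Bd K' (M' * T) x := fun x hx => by
    rw [hMT]; exact (hx.sk_ext hKK').sk_mono hHM
  have hτ'0 := hτ'.ne_zero
  -- the three lattices
  have hTle : T ≤ 1 / 4 := by
    rw [hT]; exact one_div_le_one_div_of_le (by norm_num) hQ4
  have cur1 : Cur K' M' (M' * T) T w' τ' :=
    ⟨hw', hτ'.im_pos, by linarith, fun v hv hv0 => (hτ'.short v hv hv0).trans
      (le_mul_of_one_le_left (norm_nonneg _) (by linarith)), hmono _ c2, hmono _ c3⟩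
  have himS : T ≤ (-1 / τ').im := by
    have h1 := im_S hτ' hY
    rw [hT, hQ]; exact h1
  have cur2 : Cur K' M' (M' * T) T (w' * τ') (-1 / τ') := by
    refine ⟨mul_ne_zero hw' hτ'0, lt_of_lt_of_le hT0 himS, himS, ?_, ?_, ?_⟩
    · intro v hv hv0
      rw [Lt_S hτ'0] at hv
      rw [norm_mul, mul_comm]
      have h1 : ‖τ'‖ ≤ M' := by linarith
      have h2 := hτ'.short v hv hv0
      gcongr
    · rw [G2_S hτ'0]; exact hmono _ c2
    · rw [G3_S hτ'0]; exact hmono _ c3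
  have cur3 : Cur K' M' (M' * T) (1 / M') w τ := by
    refine ⟨hw, hτ.im_pos, ?_, fun v hv hv0 => (hτ.short v hv hv0).trans
      (le_mul_of_one_le_left (norm_nonneg _) (by linarith)), hmono _ b2, hmono _ b3⟩
    have h1 : 1 / M' ≤ 1 / 2 := one_div_le_one_div_of_le (by norm_num) hM'2
    linarith
  -- endomorphisms of the lattice of τ'
  have hcm' : NonCM τ' := hcm.of_maps hdet.ne' hmap
  have hgen1 : Gen 1 (Lt w' τ') (Lt (w' * τ') (-1 / τ')) := by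
    rw [Lt_S hτ'0]
    have h1 := gen_mu (w := w') (τ := τ') (w' := w') (τ' := τ') (g := 1) hw' hw' hτ'.im_pos.ne'
      (by simp) (by
        intro d hd
        have h2 := hd 0 0
        rw [Matrix.one_apply_eq] at h2
        have h3 : d ∣ 1 := by exact_mod_cast h2
        exact Nat.dvd_one.1 h3) (by simp [Maps]) hcm'
    have h2 : mu w' τ' w' 1 = 1 := by
      unfold mu
      simp [hw']
    rwa [h2] at h1
  have hirr : ∀ r : ℚ, w' * τ' ≠ r * 1 * w' := by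
    intro r hr
    have h1 : τ' = (r : ℂ) := by
      apply mul_left_cancel₀ hw'
      rw [hr]; ring
    have h2 := hτ'.im_pos
    rw [h1] at h2
    simp at h2
  have hfr' : (Module.finrank ℚ K' : ℝ) ≤ M' := by
    have h1 : (Module.finrank ℚ K' : ℝ) ≤ 2 * Module.finrank ℚ K := by exact_mod_cast hfr
    have h2 : 4 * M ≤ M' := by rw [hM']; gcongr
    linarith
  obtain ⟨k, hk0, hk, hk1, hk2⟩ := hE K' M' T w' τ' (w' * τ') (-1 / τ') w τ 1
    ((g 0 0 : ℂ) / N * β) (((-g 1 0 : ℤ) : ℂ) / N * β) hM'2 hfr' hT0 (by rw [hMT]; linarith)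
    cur1 cur2 cur3 hgen1 bone hirr bl1 bl2 hrel
  rw [Lt_S hτ'0] at hk2
  -- divisibility
  obtain ⟨m1, hm1⟩ := hgen.all _ hk1
  obtain ⟨m2, hm2⟩ := hgen.all _ hk2
  have hβ0 : β ≠ 0 := hgen.ne
  have d1 : (N : ℤ) ∣ k * g 0 0 := by
    refine ⟨m1, ?_⟩
    have h1 : ((k : ℂ) * ((g 0 0 : ℂ) / N)) * β = m1 * β := by rw [← hm1]; ring
    have h2 := mul_right_cancel₀ hβ0 h1
    field_simp at h2
    exact_mod_cast h2
  have d2 : (N : ℤ) ∣ k * g 1 0 := by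
    refine ⟨-m2, ?_⟩
    have h1 : ((k : ℂ) * (((-g 1 0 : ℤ) : ℂ) / N)) * β = m2 * β := by rw [← hm2]; ring
    have h2 := mul_right_cancel₀ hβ0 h1
    push_cast at h2
    field_simp at h2
    have h3 : (k : ℂ) * (g 1 0 : ℂ) = N * (-(m2 : ℂ)) := by linear_combination -h2
    exact_mod_cast h3
  set e : ℕ := Int.gcd (g 0 0) (g 1 0) with he
  have de : (N : ℤ) ∣ k * e := by
    have h1 := Int.dvd_coe_gcd d1 d2
    rw [Int.gcd_mul_left] at h1
    simpa using h1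
  have hz0 : z ≠ 0 := by
    intro h0
    rw [h0] at hz2
    simp at hz2
    rcases hz2 with h | h
    · exact hN0.ne' h
    · exact hτ'.im_pos.ne' h
  have he0 : 0 < e := by
    rw [he]
    apply Int.gcd_pos_iff.2
    by_contra hcon
    push Not at hcon
    apply hz0
    rw [hz, hcon.1, hcon.2]; simp
  have hNke : (N : ℝ) ≤ k * e := by
    have h1 : N ∣ k * e := by exact_mod_cast de
    exact_mod_cast Nat.le_of_dvd (by positivity) h1
  have heR : (0 : ℝ) < e := by exact_mod_cast he0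
  have hez : (e : ℝ) ≤ ‖z‖ := by
    obtain ⟨p, hp⟩ : (e : ℤ) ∣ g 0 0 := Int.gcd_dvd_left _ _
    obtain ⟨q, hq⟩ : (e : ℤ) ∣ g 1 0 := Int.gcd_dvd_right _ _
    set v : ℂ := (p : ℂ) * w' + ((-q : ℤ) : ℂ) * (w' * τ') with hv
    have hev : (e : ℂ) * v = w' * z := by
      rw [hv, hz, hp, hq]; push_cast; ring
    have hv0 : v ≠ 0 := by
      intro h0
      rw [h0, mul_zero] at hev
      exact mul_ne_zero hw' hz0 hev.symm
    have h1 := hτ'.short v ⟨p, -q, hv⟩ hv0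
    have h2 : (e : ℝ) * ‖v‖ = ‖w'‖ * ‖z‖ := by
      have := congrArg norm hev
      rwa [norm_mul, norm_mul, Complex.norm_natCast] at this
    have h3 : ‖w'‖ * (e : ℝ) ≤ ‖w'‖ * ‖z‖ := by
      rw [← h2, mul_comm]; gcongr
    exact le_of_mul_le_mul_left h3 (norm_pos_iff.2 hw')
  -- the final estimate
  have hk0' : (0 : ℝ) ≤ k := Nat.cast_nonneg _
  have hfin : (N : ℝ) ≤ 2 * (P * M ^ 2) * (k : ℝ) ^ 2 := by
    have h1 : (N : ℝ) * N ≤ (k * e) * (k * e) := by gcongr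
    have h2 : (e : ℝ) ^ 2 ≤ 2 * N * (P * M ^ 2) := by
      refine le_trans ?_ hz3
      gcongr
    have h3 : (N : ℝ) * N ≤ (2 * (P * M ^ 2) * (k : ℝ) ^ 2) * N := by
      calc (N : ℝ) * N ≤ (k * e) * (k * e) := h1
        _ = (k : ℝ) ^ 2 * e ^ 2 := by ring
        _ ≤ (k : ℝ) ^ 2 * (2 * N * (P * M ^ 2)) := by gcongr
        _ = _ := by ring
    exact le_of_mul_le_mul_right h3 (by linarith)
  have hM'le : M' ≤ (8 * P ^ 2 * c1) * M ^ 8 * (1 + L) := by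
    rw [hM', hH]
    calc Q * (c1 * M ^ 4 * (1 + L)) ≤ (8 * P ^ 2 * M ^ 4) * (c1 * M ^ 4 * (1 + L)) := by gcongr
      _ = _ := by ring
  calc (N : ℝ) ≤ 2 * (P * M ^ 2) * (k : ℝ) ^ 2 := hfin
    _ ≤ 2 * (P * M ^ 2) * (((8 * P ^ 2 * c1) * M ^ 8 * (1 + L)) ^ Ce) ^ 2 := by
        have h1 : (k : ℝ) ≤ ((8 * P ^ 2 * c1) * M ^ 8 * (1 + L)) ^ Ce :=
          hk.trans (pow_le_pow_left₀ (by linarith) hM'le _)
        gcongr
    _ = 2 * P * (8 * P ^ 2 * c1) ^ (2 * Ce) * M ^ (2 + 16 * Ce) * (1 + L) ^ (2 * Ce) := by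
        rw [mul_pow, mul_pow, mul_pow, mul_pow, ← pow_mul, ← pow_mul, ← pow_mul, ← pow_mul,
          pow_add]
        ring

end Pool.Agent.LGO
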