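import Mathlib
import Pool.Agent.LGO.Eng2
import Pool.Agent.LGO.Mul.Main

/-!
# LGO: the transcendence measure (MEAS)

Deduced from engine 2 (`Eng.lean`) with `w₁ = w`, `τ₁ = τ`, `w₂ = w τ`, `τ₂ = -1/τ`, `γ = 1`,
`T = 1 / (2 B)`, where `B = c M²` is an upper bound for `Im τ` (`covol_bd`).
-/

namespace Pool.Agent.LGO

open Pool.Agent.EllSch

namespace MeasPf

theorem normSq_red {τ : ℂ} (h : Red τ) (m n : ℤ) (hmn : ¬ (m = 0 ∧ n = 0)) :
    1 ≤ ‖(m : ℂ) + n * τ‖ := by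
  have h1 : ‖(m : ℂ) + n * τ‖ ^ 2 = (m : ℝ) ^ 2 + 2 * m * n * τ.re + (n : ℝ) ^ 2 * ‖τ‖ ^ 2 := by
    rw [← Complex.normSq_eq_norm_sq, ← Complex.normSq_eq_norm_sq, Complex.normSq_apply,
      Complex.normSq_apply]
    simp only [Complex.add_re, Complex.intCast_re, Complex.mul_re, Complex.intCast_im, zero_mul,
      sub_zero, Complex.add_im, Complex.mul_im, add_zero, zero_add]
    ring
  have h2 : 1 ≤ ‖τ‖ ^ 2 := by nlinarith [h.one_le]
  have h3 : |(2 * m * n : ℝ) * τ.re| ≤ |(m : ℝ) * n| := by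
    have : |(2 * m * n : ℝ) * τ.re| = |(m : ℝ) * n| * (2 * |τ.re|) := by
      rw [show (2 * m * n : ℝ) * τ.re = ((m : ℝ) * n) * (2 * τ.re) by ring, abs_mul,
        abs_mul (2 : ℝ), abs_two]
    rw [this]
    have h4 := h.re_le
    have h5 := abs_nonneg ((m : ℝ) * n)
    nlinarith
  have h4 : (1 : ℝ) ≤ (m : ℝ) ^ 2 - |(m : ℝ) * n| + (n : ℝ) ^ 2 := by
    have h5 : (1 : ℤ) ≤ m ^ 2 - |m * n| + n ^ 2 := by
      have h6 : 0 < m ^ 2 - |m * n| + n ^ 2 := by
        rw [abs_mul]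
        have h7 : m ^ 2 = |m| ^ 2 := (sq_abs m).symm
        have h8 : n ^ 2 = |n| ^ 2 := (sq_abs n).symm
        rw [h7, h8]
        have h9 : 0 ≤ |m| := abs_nonneg m
        have h10 : 0 ≤ |n| := abs_nonneg n
        rcases eq_or_ne m 0 with hm | hm
        · have hn : n ≠ 0 := fun h => hmn ⟨hm, h⟩
          have := abs_pos.2 hn
          rw [hm]
          simp only [abs_zero]
          nlinarith
        · have := abs_pos.2 hm
          nlinarith [sq_nonneg (2 * |n| - |m|)]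
      linarith
    have := (Int.cast_le (R := ℝ)).2 h5
    push_cast at this
    exact this
  have h5 : (1 : ℝ) ≤ ‖(m : ℂ) + n * τ‖ ^ 2 := by
    rw [h1]
    have h6 := neg_abs_le ((2 * m * n : ℝ) * τ.re)
    have h7 : (n : ℝ) ^ 2 * 1 ≤ (n : ℝ) ^ 2 * ‖τ‖ ^ 2 := mul_le_mul_of_nonneg_left h2 (sq_nonneg _)
    linarith
  by_contra hlt
  push Not at hlt
  have := norm_nonneg ((m : ℂ) + n * τ)
  nlinarith

theorem norm_le_of_mem {w τ v : ℂ} (h : Red τ) (hv : v ∈ Lt w τ) (h0 : v ≠ 0) : ‖w‖ ≤ ‖v‖ := by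
  obtain ⟨m, n, rfl⟩ := hv
  have e : (m : ℂ) * w + n * (w * τ) = w * ((m : ℂ) + n * τ) := by ring
  rw [e, norm_mul]
  have hmn : ¬ (m = 0 ∧ n = 0) := by
    rintro ⟨rfl, rfl⟩
    simp at h0
  exact le_mul_of_one_le_right (norm_nonneg _) (normSq_red h m n hmn)

theorem neg_inv_im (τ : ℂ) : (-1 / τ).im = τ.im / ‖τ‖ ^ 2 := by
  rw [neg_div, Complex.neg_im, one_div, Complex.inv_im, ← Complex.normSq_eq_norm_sq]
  ring

end MeasPf

open MeasPf in
/-- **measure of the approximation of the quotient of the periods of an elliptic curve without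
complex multiplication by algebraic numbers** -/
theorem meas : ∃ C : ℕ, ∀ (K : IntermediateField ℚ ℂ) [FiniteDimensional ℚ K] (M : ℝ)
    (w τ ξ : ℂ), 2 ≤ M → (Module.finrank ℚ K : ℝ) ≤ M → w ≠ 0 → Red τ → NonCM τ →
    Bd K M (G2 w (w * τ)) → Bd K M (G3 w (w * τ)) → Bd K M ξ → (∀ q : ℚ, ξ ≠ q) →
    Real.exp (-(M ^ C)) ≤ ‖τ - ξ‖ := by
  obtain ⟨C₁, hC₁⟩ := engine2
  obtain ⟨c, hc, hcov⟩ := covol_bd
  obtain ⟨c₀, hc₀⟩ := exists_nat_gt (21 * c + 1)
  refine ⟨(c₀ + 4) * C₁, ?_⟩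
  intro K _ M w τ ξ hM hfin hw hred hncm hg2 hg3 hξ _
  have hM0 : 0 < M := by linarith
  have hτ : τ ≠ 0 := by
    intro h
    have := hred.im_pos
    rw [h] at this
    simp at this
  have hwτ : w * τ ≠ 0 := mul_ne_zero hw hτ
  have hc₀1 : (1 : ℝ) < c₀ := by linarith
  -- the imaginary part
  set B : ℝ := c₀ * M ^ 2 with hB
  have hM2 : 4 ≤ M ^ 2 := by nlinarith
  have hB1 : 4 ≤ B := by rw [hB]; nlinarith
  have hdisc : G2 w (w * τ) ^ 3 - 27 * G3 w (w * τ) ^ 2 ≠ 0 := by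
    have e1 : (G2 w (w * τ) ^ 3 - 27 * G3 w (w * τ) ^ 2) * w ^ 12 =
        G2 1 τ ^ 3 - 27 * G3 1 τ ^ 2 := by
      rw [G2_scale hw, G3_scale hw]
      field_simp
    have e2 := disc_eq ⟨τ, hred.im_pos⟩
    change G2 1 τ ^ 3 - 27 * G3 1 τ ^ 2 = _ at e2
    intro h
    rw [h, zero_mul, e2] at e1
    have h3 := ModularForm.discriminant_ne_zero ⟨τ, hred.im_pos⟩
    have h4 : ((2 * Real.pi : ℂ)) ^ 12 ≠ 0 := by
      apply pow_ne_zero
      norm_num [Real.pi_ne_zero]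
    exact (mul_ne_zero h4 h3) e1.symm
  have him : τ.im ≤ B := by
    have hbd := MulMain.bd_disc (by linarith : (1 : ℝ) ≤ M) hg2 hg3
    have hlow := Bd.lower hfin (by linarith) hbd hdisc K.val.toRingHom
    have h2 : ‖G2 w (w * τ)‖ ≤ Real.exp M := hg2.house K.val.toRingHom
    have h3 : ‖G3 w (w * τ)‖ ≤ Real.exp M := hg3.house K.val.toRingHom
    have h4 := (hcov w τ M (2 * M * (10 * M)) hw hred hM0.le (by positivity) h2 h3 hlow).1
    refine h4.trans ?_
    rw [hB]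
    have h5 : 1 + M + 2 * M * (10 * M) ≤ 21 * M ^ 2 := by nlinarith
    calc c * (1 + M + 2 * M * (10 * M)) ≤ c * (21 * M ^ 2) := mul_le_mul_of_nonneg_left h5 hc.le
      _ = (21 * c) * M ^ 2 := by ring
      _ ≤ c₀ * M ^ 2 := mul_le_mul_of_nonneg_right (by linarith) (by positivity)
  have hnsq : ‖τ‖ ^ 2 = τ.re ^ 2 + τ.im ^ 2 := by
    rw [← Complex.normSq_eq_norm_sq, Complex.normSq_apply]
    ring
  have hre : τ.re ^ 2 ≤ 1 / 4 := by
    have := hred.re_le
    rw [← sq_abs]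
    nlinarith [abs_nonneg τ.re]
  have him1 : 3 / 4 ≤ τ.im ^ 2 := by
    have h1 : 1 ≤ ‖τ‖ ^ 2 := by nlinarith [hred.one_le]
    linarith
  have himpos := hred.im_pos
  have him2 : 1 / 2 ≤ τ.im := by nlinarith
  have hn2 : ‖τ‖ ^ 2 ≤ 2 * τ.im ^ 2 := by linarith
  have hnτ : ‖τ‖ ≤ 2 * B := by
    by_contra h
    push Not at h
    have h1 : τ.im ^ 2 ≤ B ^ 2 := pow_le_pow_left₀ himpos.le him 2
    have h2 : (2 * B) ^ 2 < ‖τ‖ ^ 2 := pow_lt_pow_left₀ h (by linarith) (by norm_num)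
    nlinarith
  set T : ℝ := 1 / (2 * B) with hT
  have hT0 : 0 < T := by positivity
  set M' : ℝ := 2 * B * M with hM'
  have hMT : M' * T = M := by
    rw [hM', hT]
    field_simp
  have hMM' : M ≤ M' := by rw [hM']; nlinarith
  have hB2 : 2 * B ≤ M' := by rw [hM']; nlinarith
  have hM'1 : 1 ≤ M' := by linarith
  have hT1 : T ≤ 1 / 2 := by
    rw [hT]
    exact one_div_le_one_div_of_le (by norm_num) (by linarith)
  -- the two curves
  have hcur1 : Cur K M' (M' * T) T w τ := by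
    refine ⟨hw, himpos, by linarith, ?_, by rwa [hMT], by rwa [hMT]⟩
    intro v hv h0
    have h1 := norm_le_of_mem hred hv h0
    have h2 := norm_nonneg v
    nlinarith
  have hLt : ∀ v : ℂ, v ∈ Lt (w * τ) (-1 / τ) ↔ v ∈ Lt w τ := by
    intro v
    constructor
    · rintro ⟨m, n, rfl⟩
      refine ⟨-n, m, ?_⟩
      push_cast
      field_simp
      ring
    · rintro ⟨m, n, rfl⟩
      refine ⟨n, -m, ?_⟩
      push_cast
      field_simp
      ring
  have hpair : w * τ * (-1 / τ) = -w := by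
    field_simp
  have hG2 : G2 (w * τ) (w * τ * (-1 / τ)) = G2 w (w * τ) := by
    rw [hpair]
    have := G2_change (a := w) (b := w * τ) (p := 0) (q := 1) (r := -1) (s := 0) (by norm_num)
    push_cast at this
    simpa using this
  have hG3 : G3 (w * τ) (w * τ * (-1 / τ)) = G3 w (w * τ) := by
    rw [hpair]
    have := G3_change (a := w) (b := w * τ) (p := 0) (q := 1) (r := -1) (s := 0) (by norm_num)
    push_cast at this
    simpa using this
  have him' : T ≤ (-1 / τ).im := by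
    rw [neg_inv_im, hT, div_le_div_iff₀ (by positivity) (by positivity)]
    nlinarith
  have hcur2 : Cur K M' (M' * T) T (w * τ) (-1 / τ) := by
    refine ⟨hwτ, lt_of_lt_of_le hT0 him', him', ?_, by rwa [hMT, hG2], by rwa [hMT, hG3]⟩
    intro v hv h0
    have h1 := norm_le_of_mem hred ((hLt v).1 hv) h0
    rw [norm_mul]
    have h2 := norm_nonneg v
    have h3 := norm_nonneg w
    calc ‖w‖ * ‖τ‖ ≤ ‖v‖ * (2 * B) := mul_le_mul h1 hnτ (norm_nonneg _) h2
      _ ≤ ‖v‖ * M' := mul_le_mul_of_nonneg_left hB2 h2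
      _ = M' * ‖v‖ := by ring
  have hgen : Gen 1 (Lt w τ) (Lt (w * τ) (-1 / τ)) := by
    refine ⟨one_ne_zero, ?_, ?_⟩
    · intro x hx
      rw [one_mul]
      exact (hLt x).2 hx
    · intro z hz
      have h1 : z * w ∈ Lt w τ := (hLt _).1 (hz w ⟨1, 0, by simp⟩)
      have h2 : z * (w * τ) ∈ Lt w τ := (hLt _).1 (hz (w * τ) ⟨0, 1, by simp⟩)
      obtain ⟨m, n, h1⟩ := h1
      obtain ⟨m', n', h2⟩ := h2
      have h3 : z = m + n * τ := by
        apply mul_right_cancel₀ hw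
        rw [h1]
        ring
      have h4 : z * τ = m' + n' * τ := by
        apply mul_right_cancel₀ hw
        calc z * τ * w = z * (w * τ) := by ring
          _ = _ := by rw [h2]; ring
      have h5 : ((n : ℤ) : ℂ) * τ ^ 2 + ((m - n' : ℤ) : ℂ) * τ + ((-m' : ℤ) : ℂ) = 0 := by
        rw [h3] at h4
        push_cast
        linear_combination h4
      obtain ⟨h6, -, -⟩ := hncm _ _ _ h5
      refine ⟨m, ?_⟩
      rw [h3, h6]
      simp
  have hone : Bd K (M' * T) 1 := by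
    rw [hMT]
    refine ⟨K.one_mem, ⟨1, one_pos, ?_, ?_⟩, fun σ => ?_⟩
    · have := Real.one_le_exp hM0.le
      simpa using this
    · simpa using isIntegral_one
    · have : (⟨1, K.one_mem⟩ : K) = 1 := rfl
      rw [this, map_one, norm_one]
      exact Real.one_le_exp hM0.le
  have hrat : ∀ r : ℚ, w * τ ≠ r * 1 * w := by
    intro r h
    have h1 : τ = r := by
      apply mul_left_cancel₀ hw
      rw [h]
      ring
    rw [h1] at himpos
    simp at himpos
  have hfin' : (Module.finrank ℚ K : ℝ) ≤ M' := hfin.trans hMM'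
  have key := hC₁ K M' T w τ (w * τ) (-1 / τ) 1 ξ (hM.trans hMM') hfin' hT0
    (by rw [hMT]; linarith) hcur1 hcur2 hgen hone hrat (by rwa [hMT])
  have e1 : w * τ / w = τ := by field_simp
  rw [e1] at key
  refine le_trans (Real.exp_le_exp.2 (neg_le_neg ?_)) key
  have hpow : M' ≤ M ^ (c₀ + 4) := by
    have h1 : (c₀ : ℝ) ≤ 2 ^ c₀ := by exact_mod_cast Nat.lt_two_pow_self.le
    have h2 : (2 : ℝ) ^ c₀ ≤ M ^ c₀ := pow_le_pow_left₀ (by norm_num) hM _
    calc M' = 2 * c₀ * M ^ 3 := by rw [hM', hB]; ring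
      _ ≤ M * M ^ c₀ * M ^ 3 := by
          apply mul_le_mul_of_nonneg_right _ (by positivity)
          exact mul_le_mul hM (h1.trans h2) (by positivity) hM0.le
      _ = M ^ (c₀ + 4) := by ring
  calc T * M' ^ C₁ ≤ 1 * M' ^ C₁ :=
        mul_le_mul_of_nonneg_right (by linarith) (by positivity)
    _ = M' ^ C₁ := one_mul _
    _ ≤ (M ^ (c₀ + 4)) ^ C₁ := pow_le_pow_left₀ (by positivity) hpow _
    _ = M ^ ((c₀ + 4) * C₁) := by rw [← pow_mul]

end Pool.Agent.LGO
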