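import Mathlib
import Pool.Agent.LGO.EngDefs
import Pool.Agent.LGO.E4.Fin

/-!
# LGO: engine 4, the measure version of engine 3 (interface)

Curves of bounded shape (no skewness): `l₁ w₁ + l₂ w₂` is far from `w₃` unless there is an algebraic
reason (multiples of `l₁`, `l₂` are homomorphisms).

Proof (folder `LGO/E4`): as engine 3 (note 2946, folder `LGO/E3`) with an error term, compare engine 2.
Let `η = l₁ w₁ + l₂ w₂ - w₃` and `|η| ≤ exp (-M ^ C)`.  `P(u₁(z₁), u₂(z₂), u₃(l₁ z₁ + l₂ z₂))` with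
`L² L'` unknown coefficients vanishes to order `O₀` at `0`; exact order `O ≥ O₀`, leading form `p`.  At
the point `s (w₁, w₂)`, `s ∈ ℤ`, `|s| ≤ S`, the function is
`P(u₁(z₁), u₂(z₂), u₃(l₁ z₁ + l₂ z₂ + s w₃ + s η)) = P(u₁(z₁), u₂(z₂), u₃(l₁ z₁ + l₂ z₂)) + O(|s η| exp(..))`
near `0` (`u₃` is Lipschitz near the lattice points), so all Taylor coefficients of order `< O` are
`≤ |η| exp (M ^ c)`; the approximate Schwarz lemma (residue formula at the integers) and the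
determinant lemma end the proof as in engine 3.
-/

namespace Pool.Agent.LGO

open Pool.Agent.EllSch

/-- **engine 4** (two variables, measure) -/
theorem engine4 : ∃ C : ℕ, ∀ (K : IntermediateField ℚ ℂ) [FiniteDimensional ℚ K] (M : ℝ)
    (w₁ τ₁ w₂ τ₂ w₃ τ₃ γ l₁ l₂ : ℂ), 2 ≤ M → (Module.finrank ℚ K : ℝ) ≤ M →
    Cur K M M (1 / M) w₁ τ₁ → Cur K M M (1 / M) w₂ τ₂ → Cur K M M (1 / M) w₃ τ₃ →
    Gen γ (Lt w₁ τ₁) (Lt w₂ τ₂) → Bd K M γ → (∀ r : ℚ, w₂ ≠ r * γ * w₁) →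
    Bd K M l₁ → Bd K M l₂ →
    Real.exp (-(M ^ C)) ≤ ‖l₁ * w₁ + l₂ * w₂ - w₃‖ ∨
    ∃ n : ℕ, 0 < n ∧ (n : ℝ) ≤ M ^ C ∧ Mp (n * l₁) (Lt w₁ τ₁) (Lt w₃ τ₃) ∧
      Mp (n * l₂) (Lt w₂ τ₂) (Lt w₃ τ₃) :=
  E4.engine4'

end Pool.Agent.LGO
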