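import Mathlib
import Pool.Agent.LGO.EDefs

/-!
# LGO: the three engines (statements)

Notes 2913 (helper22) and 2946 (helper36).  `D ≥ 2` bounds the degree of `K`, `H ≥ 1` the logarithmic
sizes, `T ≥ 1/2` is a lower bound for the imaginary parts of `τ₁` and `τ₂` (skewness), `ρ ≥ 1` bounds
`‖ω_i‖ / ‖w_i‖`.  All bounds are in terms of `D ρ (1 + H / T)`: if `T ≥ c H` they do not depend on `H`.

These theorems are proved in other files (`E1.lean`, `E2.lean`, `E3.lean` in `Pool/Agent/LGO/E`); this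
file only fixes the statements as propositions.
-/

namespace Pool.Agent.LGO

open Pool.Agent.EllSch

/-- common hypotheses of the engines for the `i`-th curve -/
structure Pt (K : IntermediateField ℚ ℂ) (H ρ : ℝ) (w τ ω : ℂ) : Prop where
  crv : Crv K H w τ
  mem : InLat w τ ω
  ne : ω ≠ 0
  le : ‖ω‖ ≤ ρ * ‖w‖

/-- **engine 1** (exact, one variable): if `lam ω₁ = ω₂` then `I lam Λ₁ ⊆ Λ₂` with a small `I` -/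
def E1Statement : Prop :=
  ∃ C : ℕ, ∀ (K : IntermediateField ℚ ℂ) [FiniteDimensional ℚ K] (D H ρ T : ℝ)
    (w₁ τ₁ ω₁ w₂ τ₂ ω₂ lam : ℂ), 2 ≤ D → (Module.finrank ℚ K : ℝ) ≤ D → 1 ≤ H → 1 ≤ ρ →
    1 / 2 ≤ T → T ≤ τ₁.im → T ≤ τ₂.im → Pt K H ρ w₁ τ₁ ω₁ → Pt K H ρ w₂ τ₂ ω₂ → Bd K H lam →
    lam * ω₁ = ω₂ →
    ∃ I : ℕ, 0 < I ∧ (I : ℝ) ≤ (D * ρ * (1 + H / T)) ^ C ∧
      ∀ z, InLat w₁ τ₁ z → InLat w₂ τ₂ (I * lam * z)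

/-- **engine 2** (measure): `ω₂ / ω₁` is far from the algebraic numbers `ξ` which are not
(commensurable) homomorphisms -/
def E2Statement : Prop :=
  ∃ C : ℕ, ∀ (K : IntermediateField ℚ ℂ) [FiniteDimensional ℚ K] (D H ρ T : ℝ)
    (w₁ τ₁ ω₁ w₂ τ₂ ω₂ ξ : ℂ), 2 ≤ D → (Module.finrank ℚ K : ℝ) ≤ D → 1 ≤ H → 1 ≤ ρ →
    1 / 2 ≤ T → T ≤ τ₁.im → T ≤ τ₂.im → Pt K H ρ w₁ τ₁ ω₁ → Pt K H ρ w₂ τ₂ ω₂ → Bd K H ξ →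
    ¬ Com w₁ τ₁ w₂ τ₂ ξ →
    Real.exp (-(T * (D * ρ * (1 + H / T)) ^ C)) ≤ ‖ω₂ / ω₁ - ξ‖

/-- **engine 3** (two variables): `lam₁ ω₁ + lam₂ ω₂ = ω₃`; `γ` generates the homomorphisms from the
first curve to the second one, and `ω₂` is not on the line of `γ ω₁` -/
def E3Statement : Prop :=
  ∃ C : ℕ, ∀ (K : IntermediateField ℚ ℂ) [FiniteDimensional ℚ K] (D H ρ T : ℝ)
    (w₁ τ₁ ω₁ w₂ τ₂ ω₂ w₃ τ₃ ω₃ lam₁ lam₂ γ : ℂ), 2 ≤ D → (Module.finrank ℚ K : ℝ) ≤ D →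
    1 ≤ H → 1 ≤ ρ → 1 / 2 ≤ T → T ≤ τ₁.im → T ≤ τ₂.im →
    Pt K H ρ w₁ τ₁ ω₁ → Pt K H ρ w₂ τ₂ ω₂ → Pt K H ρ w₃ τ₃ ω₃ →
    Bd K H lam₁ → Bd K H lam₂ → lam₁ * ω₁ + lam₂ * ω₂ = ω₃ →
    γ ≠ 0 → Bd K H γ → Bd K H γ⁻¹ → (∀ z, InLat w₁ τ₁ z → InLat w₂ τ₂ (γ * z)) →
    (∀ ξ, Com w₁ τ₁ w₂ τ₂ ξ → ∃ r : ℚ, ξ = r * γ) → (∀ r : ℚ, ω₂ ≠ r * γ * ω₁) →
    ∃ I : ℕ, 0 < I ∧ (I : ℝ) ≤ (D * ρ * (1 + H / T)) ^ C ∧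
      (∀ z, InLat w₁ τ₁ z → InLat w₃ τ₃ (I * lam₁ * z)) ∧
      ∀ z, InLat w₂ τ₂ z → InLat w₃ τ₃ (I * lam₂ * z)

/-- **the algebraic part of engine 3** (norm, determinant lemma, factors of high multiplicity): the
Taylor coefficients at `θ` of a polynomial with algebraic coefficients are not all small, if `θ` is far
from the algebraic numbers of small degree and height -/
def TaylorStatement : Prop :=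
  ∃ C : ℕ, ∀ (K : IntermediateField ℚ ℂ) [FiniteDimensional ℚ K] (D H M : ℝ) (O : ℕ)
    (p : Polynomial K) (θ : ℂ) (ε : ℝ), 2 ≤ D → (Module.finrank ℚ K : ℝ) ≤ D → 1 ≤ H → 1 ≤ M →
    16 ≤ O → Real.log O ≤ H → p ≠ 0 → p.natDegree ≤ O →
    (∃ n : ℕ, 0 < n ∧ (n : ℝ) ≤ Real.exp (O * H) ∧ ∀ i, IsIntegral ℤ ((n : K) * p.coeff i)) →
    (∀ i, ∀ σ : K →+* ℂ, ‖σ (p.coeff i)‖ ≤ Real.exp (O * H)) → ‖θ‖ ≤ Real.exp H →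
    (∀ ξ : ℂ, (∃ q : Polynomial ℤ, q ≠ 0 ∧ Polynomial.aeval ξ q = 0 ∧ (q.natDegree : ℝ) ≤ 8 * D ∧
      ∀ i, |(q.coeff i : ℝ)| ≤ Real.exp (D ^ C * H)) → Real.exp (-M) ≤ ‖θ - ξ‖) →
    (∀ j, 2 * j ≤ O →
      ‖(Polynomial.taylor θ (p.map (algebraMap K ℂ))).coeff j‖ ≤ ε) →
    Real.exp (-(D ^ C * O * (M + H))) ≤ ε

end Pool.Agent.LGO
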